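import Pool.Agent.helper71.DSW.SpecB

/-! # dsw:BUR: the Burke bound -/

set_option autoImplicit false

namespace Pool.Agent.DSW

open Equiv Finset Function Pool.Agent.helper48.PP
open scoped ENNReal Classical

private lemma BUR_sum (n : ℕ) (f : Bool → ℝ) :
    ∑ I : Fin n → Bool, ∏ x, f (I x) = (f true + f false) ^ n := by
  rw [← Fintype.piFinset_univ, ← Finset.prod_univ_sum]
  simp

private lemma BUR_pow (n : ℕ) (z : ℝ) (P : ℕ → Prop) [DecidablePred P] :
    z ^ ((Finset.range n).filter P).card = ∏ x : Fin n, (if P (x : ℕ) then z else 1) := by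
  rw [Finset.prod_range (fun x => if P x then z else (1 : ℝ)) |>.symm]
  simp [Finset.prod_ite]

private noncomputable def BUR_w {M M' : ℕ} (w : Fin M → Fin M' → Bool) : ℕ → ℕ → Bool :=
  fun x => if h : x < M then exb (w ⟨x, h⟩) else fun _ => false

theorem BUR (hITR : ITR_stmt) (hPTH : PTH_stmt) (hPRB : PRB_stmt) : BUR_stmt := by
  intro M M' k p z α β hp0 hp1 hz hα0 hα1 hβ0 hβ1 h
  have hz0 : (0 : ℝ) ≤ z := by linarith
  set D : ℝ := 1 + α * (z - 1) with hD
  have hD1 : 1 ≤ D := by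
    have := mul_nonneg hα0 (by linarith : (0 : ℝ) ≤ z - 1)
    linarith
  have hD0 : D ≠ 0 := by linarith
  set α' : ℝ := α * z / D with hα'
  have hst : α' * β = p * ((1 - α') * (1 - β)) := by
    have : (1 - α') = (1 - α) / D := by
      rw [hα']; field_simp; rw [hD]; ring
    rw [this, hα']
    field_simp
    linarith
  -- nonnegativity
  have hmu : ∀ (q : ℝ) (b : Bool), 0 ≤ q → q ≤ 1 → 0 ≤ mu q b := by
    intro q b h0 h1; unfold mu; split_ifs <;> linarith
  have hmus : ∀ q : ℝ, mu q true + mu q false = 1 := by intro q; simp [mu]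
  have hq : ∀ I : Fin M → Bool, 0 ≤ ∏ x, mu α (I x) := fun I =>
    prod_nonneg fun x _ => hmu _ _ hα0 hα1
  have hr : ∀ J : Fin M' → Bool, 0 ≤ ∏ y, mu β (J y) := fun J =>
    prod_nonneg fun x _ => hmu _ _ hβ0 hβ1
  have hW : ∀ w : Fin M → Fin M' → Bool, 0 ≤ ∏ x, ∏ y, mu p (w x y) := fun w =>
    prod_nonneg fun x _ => prod_nonneg fun y _ => hmu _ _ hp0 hp1
  rw [hPRB]
  -- the event
  set A : (Fin M → Fin M' → Bool) → Prop := fun w => Has (1 : Perm (Fin k))
    ((Finset.univ.filter (fun z : Fin M × Fin M' => w z.1 z.2 = true)).image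
      fun z => ((z.1 : ℕ), (z.2 : ℕ))) with hA
  have e1 : (∑ w : Fin M → Fin M' → Bool, (∏ x, ∏ y, mu p (w x y)) *
      (if A w then (1 : ℝ) else 0)) =
      ∑ I : Fin M → Bool, ∑ J : Fin M' → Bool, ∑ w : Fin M → Fin M' → Bool,
        (∏ x, mu α (I x)) * (∏ y, mu β (J y)) * ((∏ x, ∏ y, mu p (w x y)) *
          (if A w then (1 : ℝ) else 0)) := by
    have : ∀ I : Fin M → Bool, ∀ J : Fin M' → Bool, ∑ w : Fin M → Fin M' → Bool,
        (∏ x, mu α (I x)) * (∏ y, mu β (J y)) * ((∏ x, ∏ y, mu p (w x y)) *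
          (if A w then (1 : ℝ) else 0)) = (∏ x, mu α (I x)) * (∏ y, mu β (J y)) *
          ∑ w : Fin M → Fin M' → Bool, ((∏ x, ∏ y, mu p (w x y)) *
          (if A w then (1 : ℝ) else 0)) := by
      intro I J; rw [mul_sum]
    simp_rw [this]
    have h2 : ∀ I : Fin M → Bool, ∑ J : Fin M' → Bool, (∏ x, mu α (I x)) * (∏ y, mu β (J y)) *
          (∑ w : Fin M → Fin M' → Bool, ((∏ x, ∏ y, mu p (w x y)) *
          (if A w then (1 : ℝ) else 0))) = (∏ x, mu α (I x)) *
          (∑ w : Fin M → Fin M' → Bool, ((∏ x, ∏ y, mu p (w x y)) *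
          (if A w then (1 : ℝ) else 0))) := by
      intro I
      rw [← sum_mul, ← mul_sum, BUR_sum, hmus, one_pow, mul_one]
    simp_rw [h2]
    rw [← sum_mul, BUR_sum, hmus, one_pow, one_mul]
  have e1' : (∑ w : Fin M → Fin M' → Bool, (∏ x, ∏ y, mu p (w x y)) *
    (if Has (1 : Perm (Fin k)) (Finset.univ.filter
        (fun z : Fin M × Fin M' => w z.1 z.2 = true) |>.image
      fun z => ((z.1 : ℕ), (z.2 : ℕ))) then 1 else 0)) =
      ∑ I : Fin M → Bool, ∑ J : Fin M' → Bool, ∑ w : Fin M → Fin M' → Bool,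
        (∏ x, mu α (I x)) * (∏ y, mu β (J y)) * ((∏ x, ∏ y, mu p (w x y)) *
          (if A w then (1 : ℝ) else 0)) := e1
  rw [e1']
  -- comparison
  set F : (Fin M' → Bool) → ℝ := fun K => ∏ y, (if K y = true then z else 1) with hF
  have e2 : z ^ k * (∑ I : Fin M → Bool, ∑ J : Fin M' → Bool, ∑ w : Fin M → Fin M' → Bool,
        (∏ x, mu α (I x)) * (∏ y, mu β (J y)) * ((∏ x, ∏ y, mu p (w x y)) *
          (if A w then (1 : ℝ) else 0))) ≤
      ∑ I : Fin M → Bool, ∑ J : Fin M' → Bool, ∑ w : Fin M → Fin M' → Bool,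
        D ^ M * ((∏ x, mu α' (I x)) * (∏ y, mu β (J y)) * (∏ x, ∏ y, mu p (w x y)) *
          F (fun y => Js (exb I) (exb J) (BUR_w w) M (y : ℕ))) := by
    rw [mul_sum]
    refine sum_le_sum fun I _ => ?_
    rw [mul_sum]
    refine sum_le_sum fun J _ => ?_
    rw [mul_sum]
    refine sum_le_sum fun w _ => ?_
    have hI : D ^ M * (∏ x, mu α' (I x)) = (∏ x, mu α (I x)) *
        z ^ ((Finset.range M).filter fun x => exb I x = true).card := by
      rw [BUR_pow, ← prod_mul_distrib]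
      have : D ^ M = ∏ x : Fin M, D := by simp
      rw [this, ← prod_mul_distrib]
      refine prod_congr rfl fun x _ => ?_
      have hx : exb I (x : ℕ) = I x := by simp [exb]
      rw [hx]
      cases I x
      · simp only [mu, Bool.false_eq_true, if_false]
        rw [hα']; field_simp; rw [hD]; ring
      · simp only [mu, if_true]
        rw [hα']; field_simp
    have hFF : F (fun y => Js (exb I) (exb J) (BUR_w w) M (y : ℕ)) =
        z ^ ((Finset.range M').filter fun y => Js (exb I) (exb J) (BUR_w w) M y = true).card := by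
      rw [BUR_pow]
    have hrhs : D ^ M * ((∏ x, mu α' (I x)) * (∏ y, mu β (J y)) * (∏ x, ∏ y, mu p (w x y)) *
          F (fun y => Js (exb I) (exb J) (BUR_w w) M (y : ℕ))) =
        ((∏ x, mu α (I x)) * (∏ y, mu β (J y)) * (∏ x, ∏ y, mu p (w x y))) *
          z ^ (((Finset.range M).filter fun x => exb I x = true).card +
            ((Finset.range M').filter fun y =>
              Js (exb I) (exb J) (BUR_w w) M y = true).card) := by
      rw [hFF, pow_add]
      calc _ = (D ^ M * (∏ x, mu α' (I x))) * (∏ y, mu β (J y)) * (∏ x, ∏ y, mu p (w x y)) *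
          z ^ ((Finset.range M').filter fun y =>
            Js (exb I) (exb J) (BUR_w w) M y = true).card := by ring
        _ = _ := by rw [hI]; ring
    rw [hrhs]
    have hlhs : z ^ k * ((∏ x, mu α (I x)) * (∏ y, mu β (J y)) * ((∏ x, ∏ y, mu p (w x y)) *
          (if A w then (1 : ℝ) else 0))) = ((∏ x, mu α (I x)) * (∏ y, mu β (J y)) *
          (∏ x, ∏ y, mu p (w x y))) * (if A w then z ^ k else 0) := by
      split_ifs <;> ring
    rw [hlhs]
    refine mul_le_mul_of_nonneg_left ?_ (mul_nonneg (mul_nonneg (hq I) (hr J)) (hW w))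
    split_ifs with hAw
    · obtain ⟨x, y, hx, hy, hxy⟩ := hAw
      refine pow_le_pow_right₀ hz (hPTH (exb I) (exb J) (BUR_w w) M M' k x y hx hy fun j => ?_)
      obtain ⟨u, hu, hu'⟩ := mem_image.1 (hxy j)
      have hu2 := (mem_filter.1 hu).2
      simp only [Prod.mk.injEq, Perm.coe_one, id_eq] at hu'
      refine ⟨hu'.1 ▸ u.1.2, hu'.2 ▸ u.2.2, ?_⟩
      rw [← hu'.1, ← hu'.2]
      simp [BUR_w, exb, hu2]
    · positivity
  refine e2.trans (le_of_eq ?_)
  have e3 := hITR M M' α' β p hst F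
  have e4 : (∑ I : Fin M → Bool, ∑ J : Fin M' → Bool, ∑ w : Fin M → Fin M' → Bool,
        D ^ M * ((∏ x, mu α' (I x)) * (∏ y, mu β (J y)) * (∏ x, ∏ y, mu p (w x y)) *
          F (fun y => Js (exb I) (exb J) (BUR_w w) M (y : ℕ)))) =
      D ^ M * ∑ J : Fin M' → Bool, (∏ y, mu β (J y)) * F J := by
    rw [← e3, mul_sum]
    refine sum_congr rfl fun I _ => ?_
    rw [mul_sum]
    refine sum_congr rfl fun J _ => ?_
    rw [mul_sum]
    rfl
  rw [e4]
  congr 1
  have e5 : ∀ J : Fin M' → Bool, (∏ y, mu β (J y)) * F J =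
      ∏ y, (fun b : Bool => mu β b * (if b = true then z else 1)) (J y) := by
    intro J; rw [hF]; simp only; rw [← prod_mul_distrib]
  rw [sum_congr rfl fun J _ => e5 J, BUR_sum M' (fun b : Bool => mu β b *
    (if b = true then z else 1))]
  congr 1
  simp [mu]
  ring

end Pool.Agent.DSW
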