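import Pool.Agent.helper71.DSW.SpecC

/-! # dsw:GEO: moments of the geometric weights -/

set_option autoImplicit false

namespace Pool.Agent.DSW

open Equiv Finset Function Pool.Agent.helper48.PP
open scoped ENNReal Classical

private lemma GEO_wt (H j : ℕ) :
    wt H j = ENNReal.ofReal ((H : ℝ) ^ j / ((H : ℝ) + 1) ^ (j + 1)) := by
  rw [ENNReal.ofReal_div_of_pos (by positivity), ENNReal.ofReal_pow (by positivity),
    ENNReal.ofReal_pow (by positivity), ENNReal.ofReal_natCast,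
    ENNReal.ofReal_add (by positivity) (by norm_num), ENNReal.ofReal_natCast, ENNReal.ofReal_one]
  rfl

private lemma GEO_gen (H : ℕ) (f : ℕ → ℝ) (hf : ∀ j, 0 ≤ f j) (S : ℝ)
    (h : HasSum (fun j : ℕ => ((H : ℝ) ^ j / ((H : ℝ) + 1) ^ (j + 1)) * f j) S) :
    ∑' j, wt H j * ENNReal.ofReal (f j) = ENNReal.ofReal S := by
  rw [← h.tsum_eq, ENNReal.ofReal_tsum_of_nonneg (fun j => mul_nonneg (by positivity) (hf j))
    h.summable]
  refine tsum_congr fun j => ?_
  rw [GEO_wt, ENNReal.ofReal_mul (by positivity)]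

private lemma GEO_cong {f g : ℕ → ℝ} {S T : ℝ} (h : HasSum f S) (hfg : ∀ j, g j = f j)
    (hST : T = S) : HasSum g T := by
  have : g = f := funext hfg
  rw [this, hST]; exact h

private lemma GEO_choose (H k : ℕ) :
    HasSum (fun j : ℕ => ((H : ℝ) ^ j / ((H : ℝ) + 1) ^ (j + 1)) * ((j + k).choose k : ℕ))
      (((H : ℝ) + 1) ^ k) := by
  have hx : ‖(H : ℝ) / ((H : ℝ) + 1)‖ < 1 := by
    rw [Real.norm_of_nonneg (by positivity), div_lt_one (by positivity)]
    linarith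
  refine GEO_cong ((hasSum_choose_mul_geometric_of_norm_lt_one k hx).mul_left
    (1 / ((H : ℝ) + 1))) (fun j => ?_) ?_
  · rw [div_pow, pow_succ]
    field_simp
  · have : 1 - (H : ℝ) / ((H : ℝ) + 1) = 1 / ((H : ℝ) + 1) := by field_simp; ring
    rw [this, div_pow, one_pow, one_div_one_div, pow_succ]
    field_simp

private lemma GEO_c2 (j : ℕ) : (((j + 2).choose 2 : ℕ) : ℝ) = ((j : ℝ) + 2) * (j + 1) / 2 := by
  rw [Nat.cast_choose_two]; push_cast; ring

private lemma GEO_c2' (j : ℕ) : (((j + 1).choose 2 : ℕ) : ℝ) = ((j : ℝ) + 1) * j / 2 := by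
  rw [Nat.cast_choose_two]; push_cast; ring

private lemma GEO_c3 (j : ℕ) :
    (((j + 3).choose 3 : ℕ) : ℝ) = ((j : ℝ) + 3) * (j + 2) * (j + 1) / 6 := by
  induction j with
  | zero => norm_num
  | succ j ih =>
    have h : (j + 1 + 3).choose 3 = (j + 3).choose 2 + (j + 3).choose 3 := by
      rw [show j + 1 + 3 = (j + 3) + 1 from by ring, Nat.choose_succ_succ]
    rw [h]
    push_cast
    rw [ih, Nat.cast_choose_two]
    push_cast
    ring

theorem GEO : GEO_stmt := by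
  intro H hH
  have h0 := GEO_choose H 0
  have h1 := GEO_choose H 1
  have h2 := GEO_choose H 2
  have h3 := GEO_choose H 3
  have e0 : HasSum (fun j : ℕ => ((H : ℝ) ^ j / ((H : ℝ) + 1) ^ (j + 1)) * 1) (1 : ℝ) := by
    simpa using h0
  have e1 : HasSum (fun j : ℕ => ((H : ℝ) ^ j / ((H : ℝ) + 1) ^ (j + 1)) * (j : ℝ)) (H : ℝ) := by
    refine GEO_cong (h1.sub e0) (fun j => ?_) (by ring)
    rw [Nat.choose_one_right]; push_cast; ring
  have e2 : HasSum (fun j : ℕ => ((H : ℝ) ^ j / ((H : ℝ) + 1) ^ (j + 1)) * (j : ℝ) ^ 2)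
      (2 * (H : ℝ) ^ 2 + H) := by
    refine GEO_cong (((h2.mul_left 2).sub (e1.mul_left 3)).sub (e0.mul_left 2))
      (fun j => ?_) (by ring)
    rw [GEO_c2]; ring
  have e3 : HasSum (fun j : ℕ => ((H : ℝ) ^ j / ((H : ℝ) + 1) ^ (j + 1)) * (j : ℝ) ^ 3)
      (6 * (H : ℝ) ^ 3 + 6 * (H : ℝ) ^ 2 + H) := by
    refine GEO_cong ((((h3.mul_left 6).sub (e2.mul_left 6)).sub (e1.mul_left 11)).sub
      (e0.mul_left 6)) (fun j => ?_) (by ring)
    rw [GEO_c3]; ring
  have e4 : HasSum (fun j : ℕ => ((H : ℝ) ^ j / ((H : ℝ) + 1) ^ (j + 1)) *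
      (((j + 1).choose 2 : ℕ) : ℝ)) ((H : ℝ) ^ 2 + H) := by
    refine GEO_cong ((e2.mul_left (1 / 2)).add (e1.mul_left (1 / 2))) (fun j => ?_) (by ring)
    rw [GEO_c2']; ring
  refine ⟨?_, ?_, ?_, ?_, ?_, ?_⟩
  · have := GEO_gen H (fun _ => 1) (fun _ => by norm_num) 1 e0
    simpa using this
  · have := GEO_gen H (fun j : ℕ => (j : ℝ)) (fun _ => by positivity) _ e1
    simpa using this
  · have := GEO_gen H (fun j : ℕ => (j : ℝ) ^ 2) (fun _ => by positivity) _ e2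
    have hc : ENNReal.ofReal (2 * (H : ℝ) ^ 2 + H) = 2 * (H : ℝ≥0∞) ^ 2 + H := by
      have : (2 * (H : ℝ) ^ 2 + H) = ((2 * H ^ 2 + H : ℕ) : ℝ) := by push_cast; ring
      rw [this, ENNReal.ofReal_natCast]; push_cast; ring
    rw [hc] at this
    rw [← this]
    refine tsum_congr fun j => ?_
    rw [ENNReal.ofReal_pow (by positivity), ENNReal.ofReal_natCast]
  · have := GEO_gen H (fun j : ℕ => (j : ℝ) ^ 3) (fun _ => by positivity) _ e3
    have hc : ENNReal.ofReal (6 * (H : ℝ) ^ 3 + 6 * (H : ℝ) ^ 2 + H) =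
        6 * (H : ℝ≥0∞) ^ 3 + 6 * (H : ℝ≥0∞) ^ 2 + H := by
      have : (6 * (H : ℝ) ^ 3 + 6 * (H : ℝ) ^ 2 + H) =
          ((6 * H ^ 3 + 6 * H ^ 2 + H : ℕ) : ℝ) := by push_cast; ring
      rw [this, ENNReal.ofReal_natCast]; push_cast; ring
    rw [hc] at this
    rw [← this]
    refine tsum_congr fun j => ?_
    rw [ENNReal.ofReal_pow (by positivity), ENNReal.ofReal_natCast]
  · have := GEO_gen H (fun j : ℕ => (((j + 1).choose 2 : ℕ) : ℝ)) (fun _ => by positivity) _ e4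
    have hc : ENNReal.ofReal ((H : ℝ) ^ 2 + H) = (H : ℝ≥0∞) ^ 2 + H := by
      have : ((H : ℝ) ^ 2 + H) = ((H ^ 2 + H : ℕ) : ℝ) := by push_cast; ring
      rw [this, ENNReal.ofReal_natCast]; push_cast; ring
    rw [hc] at this
    rw [← this]
    refine tsum_congr fun j => ?_
    rw [ENNReal.ofReal_natCast]
  · intro t ht htH
    refine GEO_gen H (fun j : ℕ => (1 + t) ^ j) (fun _ => by positivity) _ ?_
    have hr0 : 0 ≤ (H : ℝ) * (1 + t) / ((H : ℝ) + 1) := by positivity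
    have hr1 : (H : ℝ) * (1 + t) / ((H : ℝ) + 1) < 1 := by
      rw [div_lt_one (by positivity)]; nlinarith
    refine GEO_cong ((hasSum_geometric_of_lt_one hr0 hr1).mul_left (1 / ((H : ℝ) + 1)))
      (fun j => ?_) ?_
    · rw [div_pow, mul_pow, pow_succ]
      field_simp
    · have h1 : 1 - (H : ℝ) * (1 + t) / ((H : ℝ) + 1) = (1 - H * t) / ((H : ℝ) + 1) := by
        field_simp; ring
      have h2 : (1 - (H : ℝ) * t) ≠ 0 := by linarith
      rw [h1]
      field_simp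

end Pool.Agent.DSW
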