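import Pool.Agent.helper71.DSW.SpecB

/-! # dsw:PTH: chains and the last passage function -/

set_option autoImplicit false

namespace Pool.Agent.DSW

open Equiv Finset Function Pool.Agent.helper48.PP
open scoped ENNReal Classical

/-- The last passage function. -/
private noncomputable def PTH_G (I J : ℕ → Bool) (w : ℕ → ℕ → Bool) (x y : ℕ) : ℤ :=
  (∑ x' ∈ range x, if I x' = true then (1 : ℤ) else 0) +
    ∑ y' ∈ range y, if Js I J w x y' = true then (1 : ℤ) else 0

private lemma PTH_cell (i j ω : Bool) :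
    (if (!i && (j || ω)) = true then (1 : ℤ) else 0) - (if j = true then (1 : ℤ) else 0) =
    (if (!j && (i || ω)) = true then (1 : ℤ) else 0) - (if i = true then (1 : ℤ) else 0) := by
  revert i j ω; decide

private lemma PTH_i (I J : ℕ → Bool) (w : ℕ → ℕ → Bool) (x y : ℕ) :
    PTH_G I J w (x + 1) y = PTH_G I J w x y +
      (if hor (I x) (Js I J w x) (w x) y = true then (1 : ℤ) else 0) := by
  induction y with
  | zero =>
    simp only [PTH_G, hor, sum_range_succ, sum_range_zero, add_zero]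
    rfl
  | succ y ih =>
    have h1 : PTH_G I J w (x + 1) (y + 1) = PTH_G I J w (x + 1) y +
        (if Js I J w (x + 1) y = true then (1 : ℤ) else 0) := by
      simp only [PTH_G, sum_range_succ _ y]; ring
    have h2 : PTH_G I J w x (y + 1) = PTH_G I J w x y +
        (if Js I J w x y = true then (1 : ℤ) else 0) := by
      simp only [PTH_G, sum_range_succ _ y]; ring
    rw [h1, h2, ih]
    have hc := PTH_cell (hor (I x) (Js I J w x) (w x) y) (Js I J w x y) (w x y)
    have e1 : Js I J w (x + 1) y = (!(hor (I x) (Js I J w x) (w x) y) && (Js I J w x y || w x y)) :=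
      rfl
    have e2 : hor (I x) (Js I J w x) (w x) (y + 1) =
      (!(Js I J w x y) && (hor (I x) (Js I J w x) (w x) y || w x y)) := rfl
    rw [e1, e2]
    linarith

private lemma PTH_x (I J : ℕ → Bool) (w : ℕ → ℕ → Bool) (x y : ℕ) :
    PTH_G I J w x y ≤ PTH_G I J w (x + 1) y := by
  rw [PTH_i]; split_ifs <;> simp

private lemma PTH_y (I J : ℕ → Bool) (w : ℕ → ℕ → Bool) (x y : ℕ) :
    PTH_G I J w x y ≤ PTH_G I J w x (y + 1) := by
  simp only [PTH_G, sum_range_succ _ y]
  split_ifs <;> simp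

private lemma PTH_d (I J : ℕ → Bool) (w : ℕ → ℕ → Bool) (x y : ℕ) (h : w x y = true) :
    PTH_G I J w x y + 1 ≤ PTH_G I J w (x + 1) (y + 1) := by
  have h1 : PTH_G I J w (x + 1) (y + 1) = PTH_G I J w (x + 1) y +
      (if Js I J w (x + 1) y = true then (1 : ℤ) else 0) := by
    simp only [PTH_G, sum_range_succ _ y]; ring
  have e1 : Js I J w (x + 1) y = (!(hor (I x) (Js I J w x) (w x) y) && (Js I J w x y || w x y)) :=
    rfl
  rw [h1, PTH_i, e1, h]
  cases hor (I x) (Js I J w x) (w x) y <;> simp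

private lemma PTH_mono (I J : ℕ → Bool) (w : ℕ → ℕ → Bool) {x x' y y' : ℕ} (hx : x ≤ x')
    (hy : y ≤ y') : PTH_G I J w x y ≤ PTH_G I J w x' y' := by
  have h1 : ∀ d, PTH_G I J w x y ≤ PTH_G I J w (x + d) y := by
    intro d; induction d with
    | zero => simp
    | succ d ih => exact ih.trans (PTH_x I J w (x + d) y)
  have h2 : ∀ d, PTH_G I J w x' y ≤ PTH_G I J w x' (y + d) := by
    intro d; induction d with
    | zero => simp
    | succ d ih => exact ih.trans (PTH_y I J w x' (y + d))
  obtain ⟨d, rfl⟩ := Nat.exists_eq_add_of_le hx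
  obtain ⟨d', rfl⟩ := Nat.exists_eq_add_of_le hy
  exact (h1 d).trans (h2 d')

private lemma PTH_pos (I J : ℕ → Bool) (w : ℕ → ℕ → Bool) (x y : ℕ) : 0 ≤ PTH_G I J w x y := by
  unfold PTH_G
  apply add_nonneg <;> apply sum_nonneg <;> intros <;> split_ifs <;> simp

theorem PTH : PTH_stmt := by
  intro I J w M M' k x y hx hy h
  have key : ∀ n (hn : n < k), ((n : ℤ) + 1) ≤ PTH_G I J w (x ⟨n, hn⟩ + 1) (y ⟨n, hn⟩ + 1) := by
    intro n
    induction n with
    | zero =>
      intro hn
      have := PTH_d I J w (x ⟨0, hn⟩) (y ⟨0, hn⟩) (h ⟨0, hn⟩).2.2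
      have := PTH_pos I J w (x ⟨0, hn⟩) (y ⟨0, hn⟩)
      push_cast; linarith
    | succ n ih =>
      intro hn
      have h0 := ih (by omega)
      have h1 := PTH_d I J w (x ⟨n + 1, hn⟩) (y ⟨n + 1, hn⟩) (h ⟨n + 1, hn⟩).2.2
      have hlt : (⟨n, by omega⟩ : Fin k) < ⟨n + 1, hn⟩ := by simp [Fin.lt_def]
      have h2 := PTH_mono I J w (Nat.succ_le_of_lt (hx hlt)) (Nat.succ_le_of_lt (hy hlt))
      simp only [Nat.succ_eq_add_one] at h2
      push_cast
      linarith
  have hG : (k : ℤ) ≤ PTH_G I J w M M' := by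
    rcases Nat.eq_zero_or_pos k with hk | hk
    · subst hk; simpa using PTH_pos I J w M M'
    · have h0 := key (k - 1) (by omega)
      have hl := h ⟨k - 1, by omega⟩
      have h2 := PTH_mono I J w (Nat.succ_le_of_lt hl.1) (Nat.succ_le_of_lt hl.2.1)
      simp only [Nat.succ_eq_add_one] at h2
      have : ((k - 1 : ℕ) : ℤ) + 1 = k := by push_cast [Nat.cast_sub hk]; ring
      linarith
  have hc : PTH_G I J w M M' = (((Finset.range M).filter fun x => I x = true).card +
    ((Finset.range M').filter fun y => Js I J w M y = true).card : ℕ) := by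
    unfold PTH_G
    rw [card_filter, card_filter]
    push_cast
    rfl
  rw [hc] at hG
  exact_mod_cast hG

end Pool.Agent.DSW
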