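import Pool.Agent.helper71.DSW.SpecB

/-! # dsw:TRF: the blocks side by side -/

set_option autoImplicit false

namespace Pool.Agent.DSW

open Equiv Finset Function Pool.Agent.helper48.PP
open scoped ENNReal Classical

private def TRF_off {L : ℕ} (m : Fin L → ℕ) (b : Fin L) : ℕ :=
  ∑ b' ∈ Finset.univ.filter (fun b' : Fin L => b' < b), m b'

private lemma TRF_le {L : ℕ} (m : Fin L → ℕ) {b b' : Fin L} (h : b < b') :
    TRF_off m b + m b ≤ TRF_off m b' := by
  unfold TRF_off
  have hb : b ∉ Finset.univ.filter (fun c : Fin L => c < b) := by simp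
  rw [add_comm, ← Finset.sum_insert hb]
  apply Finset.sum_le_sum_of_subset
  intro c hc
  rw [mem_insert, mem_filter] at hc
  rw [mem_filter]
  rcases hc with rfl | hc
  · exact ⟨mem_univ _, h⟩
  · exact ⟨mem_univ _, hc.2.trans h⟩

private lemma TRF_lt {L : ℕ} (m : Fin L → ℕ) (b : Fin L) {x : ℕ} (hx : x < m b) :
    TRF_off m b + x < ∑ c, m c := by
  have h : TRF_off m b + m b ≤ ∑ c, m c := by
    unfold TRF_off
    have hb : b ∉ Finset.univ.filter (fun c : Fin L => c < b) := by simp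
    rw [add_comm, ← Finset.sum_insert hb]
    exact Finset.sum_le_sum_of_subset (subset_univ _)
  omega

private lemma TRF_inj {L : ℕ} (m : Fin L → ℕ) {b b' : Fin L} {x x' : ℕ} (hx : x < m b)
    (hx' : x' < m b') (h : TRF_off m b + x = TRF_off m b' + x') : b = b' ∧ x = x' := by
  rcases lt_trichotomy b b' with hb | hb | hb
  · have := TRF_le m hb; omega
  · subst hb; exact ⟨rfl, by omega⟩
  · have := TRF_le m hb; omega

private lemma TRF_mono {L : ℕ} (m : Fin L → ℕ) (s : Fin L → Fin L → ℕ)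
    (hs : ∀ b, StrictMono (s b)) (hm : ∀ b i, s b i < m b) :
    StrictMono (fun j : Fin (L * L) => TRF_off m (finProdFinEquiv.symm j).1 +
      s (finProdFinEquiv.symm j).1 (finProdFinEquiv.symm j).2) := by
  intro j j' hjj
  obtain ⟨⟨b, i⟩, rfl⟩ := finProdFinEquiv.surjective j
  obtain ⟨⟨b', i'⟩, rfl⟩ := finProdFinEquiv.surjective j'
  simp only [Equiv.symm_apply_apply]
  have hv : (i : ℕ) + L * (b : ℕ) < (i' : ℕ) + L * (b' : ℕ) := by
    have := Fin.lt_def.1 hjj
    simpa [finProdFinEquiv_apply_val] using this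
  rcases lt_trichotomy b b' with hb | hb | hb
  · have h1 := TRF_le m hb
    have h2 := hm b i
    omega
  · subst hb
    have : i < i' := Fin.lt_def.2 (by omega)
    have := hs b this
    omega
  · exfalso
    have h1 : (b' : ℕ) + 1 ≤ (b : ℕ) := hb
    have h2 : L * ((b' : ℕ) + 1) ≤ L * (b : ℕ) := Nat.mul_le_mul_left _ h1
    have h3 := i'.2
    have h4 : L * ((b' : ℕ) + 1) = L * (b' : ℕ) + L := by ring
    omega

private lemma TRF_mem {L : ℕ} (m m' : Fin L → ℕ) (c : Cell L) :
    c ∈ Dom m m' ↔ c.2.1 < m c.1.1 ∧ c.2.2 < m' c.1.2 := by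
  unfold Dom
  simp only [mem_biUnion, mem_univ, true_and, mem_product, mem_singleton, mem_range]
  constructor
  · rintro ⟨u, h1, h2⟩
    rw [h1]; exact h2
  · intro h
    exact ⟨c.1, rfl, h⟩

theorem TRF (hPRL : PRL_stmt) : TRF_stmt := by
  intro L m m' p hp0 hp1
  set φ : Cell L → ℕ × ℕ := fun c => (TRF_off m c.1.1 + c.2.1, TRF_off m' c.1.2 + c.2.2) with hφ
  have hinj : Set.InjOn φ (Dom m m' : Set (Cell L)) := by
    rintro ⟨⟨b, i⟩, x, y⟩ hc ⟨⟨b', i'⟩, x', y'⟩ hc' h
    rw [mem_coe, TRF_mem] at hc hc'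
    simp only [hφ, Prod.mk.injEq] at h hc hc'
    obtain ⟨h1, h2⟩ := TRF_inj m hc.1 hc'.1 h.1
    obtain ⟨h3, h4⟩ := TRF_inj m' hc.2 hc'.2 h.2
    subst h1 h2 h3 h4
    rfl
  have himg : (Dom m m').image φ = Finset.range (∑ b, m b) ×ˢ Finset.range (∑ i, m' i) := by
    apply Finset.eq_of_subset_of_card_le
    · intro z hz
      obtain ⟨c, hc, rfl⟩ := mem_image.1 hz
      rw [TRF_mem] at hc
      rw [mem_product, mem_range, mem_range]
      exact ⟨TRF_lt m _ hc.1, TRF_lt m' _ hc.2⟩
    · rw [Finset.card_image_of_injOn hinj, card_product, card_range, card_range]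
      unfold Dom
      rw [card_biUnion]
      · simp only [card_product, card_singleton, card_range, one_mul]
        rw [Fintype.sum_prod_type, Finset.sum_mul_sum]
      · intro u _ v _ huv
        refine Finset.disjoint_left.2 ?_
        intro c hc hc'
        rw [mem_product, mem_singleton] at hc hc'
        exact huv (hc.1.symm.trans hc'.1)
  obtain ⟨-, h2, -, -, h5⟩ := hPRL (Cell L) (Dom m m') p hp0 hp1
  have h5' := h5 (ℕ × ℕ) φ hinj (Has (grid L))
  have himg' : (@Finset.image _ _ (fun a b => Classical.propDecidable (a = b)) φ (Dom m m')) =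
      Finset.range (∑ b, m b) ×ˢ Finset.range (∑ i, m' i) := by
    rw [← himg]; ext z; simp only [mem_image]
  rw [himg'] at h5'
  rw [h5']
  refine h2 _ _ fun S hS => ?_
  rintro ⟨e, he, heS⟩
  refine ⟨fun j => TRF_off m (finProdFinEquiv.symm j).1 +
      e.1 (finProdFinEquiv.symm j).1 (finProdFinEquiv.symm j).2,
    fun j => TRF_off m' (finProdFinEquiv.symm j).1 +
      e.2 (finProdFinEquiv.symm j).1 (finProdFinEquiv.symm j).2,
    TRF_mono m e.1 he.1 he.2.2.1, TRF_mono m' e.2 he.2.1 he.2.2.2, fun j => ?_⟩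
  obtain ⟨⟨b, i⟩, rfl⟩ := finProdFinEquiv.surjective j
  have hg : (grid L) (finProdFinEquiv (b, i)) = finProdFinEquiv (i, b) := by
    simp [grid]
  rw [hg]
  simp only [Equiv.symm_apply_apply]
  have hmem : cellAt e (b, i) ∈ S := heS (mem_image.2 ⟨(b, i), mem_univ _, rfl⟩)
  exact (@Finset.mem_image _ _ (fun a b => Classical.propDecidable (a = b)) φ S _).2
    ⟨cellAt e (b, i), hmem, rfl⟩

end Pool.Agent.DSW
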